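import Pool.Agent.Helper36.LX.Sheet
import Pool.Agent.Helper63.LG.SUM

/-! # Row SUM of LX (MP_665203_co) (helper53, after Helper63/LG/SUM.lean) -/

set_option autoImplicit false

open MeasureTheory Metric Set Filter Topology
open scoped ENNReal NNReal

namespace H11ST
namespace LX
open LG LG.S63
namespace S53

variable {d n : ℕ}

theorem sT_nonneg (p : Fin n → E d) (v : E d) : 0 ≤ sT p v := by
  unfold sT
  exact Finset.sum_nonneg fun k _ => Th_nonneg _

/-- nodes of norm `≥ 1 / 2` -/
theorem sT_big (hCOO : LX_COO) (p : Fin n → E d) (hp : NO p) (v : E d) (hv : v ∈ Hu p)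
    (h : 1 / 2 ≤ ‖v‖) : 1 / 4 - 3 * e0 ≤ sT p v := by
  obtain ⟨-, h0⟩ := hCOO d n p hp
  obtain ⟨-, -, -, -, -, -, -, h1⟩ := h0 v hv
  by_cases hc : ∃ k, 1 / 2 < co p v k
  · obtain ⟨k, hk⟩ := hc
    have h2 : Th (co p v k) ≤ sT p v := by
      unfold sT
      exact Finset.single_le_sum (f := fun k => Th (co p v k)) (fun k _ => Th_nonneg _)
        (Finset.mem_univ k)
    have h3 : 1 / 4 ≤ Th (co p v k) := by
      unfold Th
      rw [if_neg (not_le.2 hk)]
      nlinarith
    unfold e0
    linarith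
  · push Not at hc
    have h2 : sT p v = ∑ k, co p v k ^ 2 := by
      unfold sT
      refine Finset.sum_congr rfl fun k _ => ?_
      unfold Th
      rw [if_pos (hc k)]
    rw [h2]
    nlinarith

theorem p_mem (p : Fin n → E d) (i : Fin n) : p i ∈ Hu p := subset_convexHull ℝ _ ⟨i, rfl⟩

theorem pos_mem (p : Fin n → E d) (t : BT (Fin n) (E d)) (h : ∀ z ∈ t.nodes, z ∈ Hu p) :
    t.pos p ∈ Hu p := by
  cases t with
  | leaf i => exact p_mem p i
  | node z l r => exact h z (by simp [BT.nodes])

/-- the inequality at an edge below a node of norm `≥ 1 / 2` -/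
theorem edge_big (hCOO : LX_COO) (hED : LX_ED) (p : Fin n → E d) (hp : NO p)
    (hLF : ∀ v ∈ Hu p, 1 / 2 ≤ ‖v‖ → ∀ j : Fin n, 7 / 100 ≤ SL p v (p j) + (sT p v - 1 / 4))
    (z : E d) (hz : z ∈ Hu p) (hz2 : 1 / 2 ≤ ‖z‖)
    (l : BT (Fin n) (E d)) (hl : l.pos p ∈ Hu p) :
    7 / 100 * lam l - (sT p z - 1 / 4) - 3 * e0 ≤ EE p z (l.pos p) - TE p z (l.pos p) := by
  cases l with
  | leaf i =>
    have := hLF z hz hz2 i
    unfold SL at this
    have he : 0 ≤ e0 := by unfold e0; norm_num
    change 7 / 100 * 1 - (sT p z - 1 / 4) - 3 * e0 ≤ EE p z (p i) - TE p z (p i)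
    linarith
  | node w a b =>
    have h1 := hED hCOO d n p hp z hz ((BT.node w a b).pos p) hl
    have h2 := sT_big hCOO p hp z hz hz2
    have h3 : lam (BT.node w a b : BT (Fin n) (E d)) = 0 := rfl
    rw [h3]
    linarith

theorem lam_le (l : BT (Fin n) (E d)) : lam l ≤ 1 := by
  cases l with
  | leaf i => exact le_rfl
  | node w a b => exact zero_le_one

/-- the sum over the tree -/
theorem tree (hCOO : LX_COO) (hED : LX_ED) (p : Fin n → E d) (hp : NO p)
    (hLF : ∀ v ∈ Hu p, 1 / 2 ≤ ‖v‖ → ∀ j : Fin n, 7 / 100 ≤ SL p v (p j) + (sT p v - 1 / 4))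
    (t : BT (Fin n) (E d)) (h : ∀ z ∈ t.nodes, z ∈ Hu p) :
    7 / 100 * (nn t + 1 - lam t) - 65 / 100 * nin t + nn t * (1 / 2 - 6 * e0) ≤
      t.esum p (EE p) - t.esum p (TE p) + 2 * t.nsum (sT p) := by
  classical
  have he : 0 ≤ e0 := by unfold e0; norm_num
  induction t with
  | leaf i =>
    have h1 : lam (BT.leaf i : BT (Fin n) (E d)) = 1 := rfl
    have h2 : nin (BT.leaf i : BT (Fin n) (E d)) = 0 := rfl
    rw [h1, h2, nn_leaf]
    simp [BT.esum, BT.nsum]
  | node z l r hl hr =>
    have hz : z ∈ Hu p := h z (by simp [BT.nodes])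
    have hl' : ∀ w ∈ l.nodes, w ∈ Hu p := fun w hw => h w (by simp [BT.nodes, hw])
    have hr' : ∀ w ∈ r.nodes, w ∈ Hu p := fun w hw => h w (by simp [BT.nodes, hw])
    have il := hl hl'
    have ir := hr hr'
    have pl := pos_mem p l hl'
    have pr := pos_mem p r hr'
    have h3 : lam (BT.node z l r : BT (Fin n) (E d)) = 0 := rfl
    have h4 : nin (BT.node z l r : BT (Fin n) (E d)) =
        (if ‖z‖ < 1 / 2 then 1 else 0) + nin l + nin r := by
      unfold nin
      simp only [BT.nsum]
    rw [h3, h4, nn_node]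
    simp only [BT.esum, BT.nsum]
    by_cases hz2 : ‖z‖ < 1 / 2
    · rw [if_pos hz2]
      have e1 := hED hCOO d n p hp z hz (l.pos p) pl
      have e2 := hED hCOO d n p hp z hz (r.pos p) pr
      have e3 := sT_nonneg p z
      have e4 := lam_le l
      have e5 := lam_le r
      linarith
    · rw [if_neg hz2]
      push Not at hz2
      have e1 := edge_big hCOO hED p hp hLF z hz hz2 l pl
      have e2 := edge_big hCOO hED p hp hLF z hz hz2 r pr
      linarith

theorem var_fun (p : Fin n → E d) (c : ℝ) (a b : E d) :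
    inner ℝ (a - b) ((c • a - XX p a) - (c • b - XX p b)) / ‖a - b‖ =
      (1 + c) * dist a b + (-1) * EE p a b := by
  unfold EE
  rw [dist_eq_norm]
  have h1 : (c • a - XX p a) - (c • b - XX p b) =
      c • (a - b) - (XX p a - XX p b) := by
    rw [smul_sub]
    abel
  rw [h1, inner_sub_right, inner_smul_right, real_inner_self_eq_norm_sq]
  rcases eq_or_ne ‖a - b‖ 0 with h | h
  · rw [h]
    simp
  · field_simp
    ring

theorem esum_dist_nonneg (p : Fin n → E d) (t : BT (Fin n) (E d)) : 0 ≤ t.esum p dist := by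
  induction t with
  | leaf i => exact le_refl _
  | node z l r hl hr =>
    unfold BT.esum
    have h1 : 0 ≤ dist z (l.pos p) := dist_nonneg
    have h2 : 0 ≤ dist z (r.pos p) := dist_nonneg
    linarith

end S53

open S53 in
theorem sum : LX_SUM := by
  classical
  intro hVAR hTV hCOO hED hLF hUP d n p hp i0 hn t ht
  have he : e0 = 1 / 1000000 := rfl
  have hLFp := hLF d n p hp
  obtain ⟨hco, -⟩ := hCOO d n p hp
  have hL0 : 0 ≤ tot p i0 dist t := by
    unfold tot
    exact add_nonneg dist_nonneg (esum_dist_nonneg p t)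
  have hL : tot p i0 dist t ≤ 9545 / 10000 * n + 2 / 10 := by
    obtain ⟨t', h1, h2⟩ := hUP d n p hp i0 (by omega)
    exact (ht.le t' h1).trans h2
  have hF : FF (1 - e0) ≤ 7 / 8 := by
    unfold FF
    rw [if_neg (by rw [he]; norm_num), he]
    norm_num
  have hT : 5 / 8 - e0 ≤ Th (1 - e0) := by
    unfold Th
    rw [if_neg (by rw [he]; norm_num), he]
    norm_num
  -- first variation
  have h1 : tot p i0 (EE p) t ≤ 15 / 8 * tot p i0 dist t := by
    have hD : ∀ i, (fun y : E d => FF (1 - e0) • y - XX p y) (p i) = 0 := by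
      intro i
      have h2 : XX p (p i) = FF (1 - e0) • p i := by
        unfold XX
        rw [Finset.sum_eq_single i]
        · rw [(hco i).1]
        · intro k _ hk
          rw [(hco i).2 k hk, FF_zero, zero_smul]
        · intro h; exact absurd (Finset.mem_univ i) h
      simp only [h2, sub_self]
    have h2 := hVAR d n p i0 t ht (fun y => FF (1 - e0) • y - XX p y) hD
    have h3 : (fun a b : E d => inner ℝ (a - b) ((fun y : E d => FF (1 - e0) • y - XX p y) a -
        (fun y : E d => FF (1 - e0) • y - XX p y) b) / ‖a - b‖) =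
        fun a b => (1 + FF (1 - e0)) * dist a b + (-1) * EE p a b := by
      funext a b
      exact var_fun p _ a b
    rw [h3] at h2
    have h4 : tot p i0 (EE p) t ≤ (1 + FF (1 - e0)) * tot p i0 dist t := by
      unfold tot at h2 ⊢
      rw [esum_add, esum_mul, esum_mul] at h2
      linarith
    refine h4.trans (mul_le_mul_of_nonneg_right (by linarith) hL0)
  -- trees
  have h2 : 2 * (5 / 8 - e0) * (n : ℝ) + 2 * t.nsum (sT p) ≤ tot p i0 (TE p) t := by
    have h3 : ∀ j : Fin n, (5 / 8 - e0) + t.nsum (fun a => Th (co p a j)) ≤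
        tot p i0 (fun a b => |Th (co p a j) - Th (co p b j)|) t := by
      intro j
      have h4 := hTV d n p i0 t ht.val (fun a => Th (co p a j)) j (fun i hi => by
        rw [(hco i).2 j (Ne.symm hi), Th_zero])
      simp only [(hco j).1] at h4
      linarith
    have h5 := Finset.sum_le_sum fun j (_ : j ∈ Finset.univ) => h3 j
    rw [Finset.sum_add_distrib, Finset.sum_const, Finset.card_univ, Fintype.card_fin,
      nsmul_eq_mul, ← nsum_sum] at h5
    have h6 : ∑ j, tot p i0 (fun a b => |Th (co p a j) - Th (co p b j)|) t =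
        1 / 2 * tot p i0 (TE p) t := by
      unfold tot
      rw [Finset.sum_add_distrib, ← esum_sum, mul_add, ← esum_mul]
      unfold TE
      congr 1
      · ring
      · congr 1
        funext a b
        ring
    rw [h6] at h5
    have h7 : t.nsum (fun a => ∑ k, Th (co p a k)) = t.nsum (sT p) := rfl
    rw [h7] at h5
    linarith
  have h3 := tree hCOO hED p hp hLFp t ht.mem
  have h4 := hED hCOO d n p hp (p i0) (p_mem p i0) (t.pos p) (pos_mem p t ht.mem)
  have h5 : nn t = (n : ℝ) - 2 := by
    have h6 := card_lv t ht.val.1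
    rw [ht.val.2, Finset.card_erase_of_mem (Finset.mem_univ _), Finset.card_univ,
      Fintype.card_fin] at h6
    rw [Nat.cast_sub (by omega)] at h6
    push_cast at h6
    linarith
  have hn3 : (3 : ℝ) ≤ n := by exact_mod_cast hn
  have h6 : lam t = 0 := by
    cases t with
    | leaf i =>
      rw [nn_leaf] at h5
      linarith
    | node z l r => rfl
  rw [h5, h6, he] at h3
  rw [he] at h2
  unfold tot at h1 h2 hL
  linarith

end LX
end H11ST
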